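import Mathlib
import Pool.Agent.Helper11.Q3.Stmts

/-!
# Project TF, part A1, block J2: the biased law of the signs is contiguous to the fair law
-/

set_option autoImplicit false

namespace Pool.Agent.Helper11.Q3

open Finset Pool.Agent.Helper5.RM

private lemma av_sq17 (b : ℕ → ℝ) (S : Finset ℕ) :
    av S (fun T => (∏ p ∈ S, (1 + sg T p * b p)) ^ 2) = ∏ p ∈ S, (1 + b p ^ 2) := by
  induction S using Finset.induction_on with
  | empty => simp [av_empty]
  | insert q S hq ih =>
    rw [av_insert hq, Finset.prod_insert hq, ← ih]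
    have h1 : av S (fun T => (∏ p ∈ insert q S, (1 + sg T p * b p)) ^ 2) =
        (1 + b q) ^ 2 * av S (fun T => (∏ p ∈ S, (1 + sg T p * b p)) ^ 2) := by
      rw [← av_mul_left]
      apply av_congr
      intro T hT
      rw [Finset.prod_insert hq, sg_not_mem (fun h => hq (hT h)), one_mul, mul_pow]
    have h2 : av S (fun T => (∏ p ∈ insert q S, (1 + sg (insert q T) p * b p)) ^ 2) =
        (1 - b q) ^ 2 * av S (fun T => (∏ p ∈ S, (1 + sg T p * b p)) ^ 2) := by
      rw [← av_mul_left]
      apply av_congr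
      intro T hT
      rw [Finset.prod_insert hq, sg_mem (Finset.mem_insert_self q T), mul_pow]
      congr 1
      · ring
      · congr 1
        apply Finset.prod_congr rfl
        intro p hp
        have hne : p ≠ q := fun h => hq (h ▸ hp)
        rw [sg_insert_of_ne hne]
    rw [h1, h2]
    ring

private lemma sum_le17 (N : ℕ) : ∑ p ∈ PP N, bp p ^ 2 ≤ 1 := by
  have h1 : ∀ p ∈ PP N, bp p ^ 2 ≤ 1 / (p : ℝ) - 1 / ((p : ℝ) + 1) := by
    intro p hp
    have hp0 : (0 : ℝ) < p := by exact_mod_cast (mem_PP.mp hp).1.pos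
    have h2 : (0 : ℝ) ≤ 1 / (p : ℝ) - 1 / ((p : ℝ) + 1) := by
      rw [sub_nonneg]
      exact one_div_le_one_div_of_le hp0 (by linarith)
    unfold bp
    split_ifs with h
    · rw [zero_pow two_ne_zero]
      exact h2
    · rw [div_sub_div _ _ hp0.ne' (by positivity), div_pow, div_le_div_iff₀ (by positivity)
        (by positivity)]
      nlinarith
  have h3 : ∀ n : ℕ, ∑ p ∈ Finset.Icc 1 n, (1 / (p : ℝ) - 1 / ((p : ℝ) + 1)) =
      1 - 1 / ((n : ℝ) + 1) := by
    intro n
    induction n with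
    | zero => simp
    | succ n ih =>
      rw [Finset.sum_Icc_succ_top (by omega), ih]
      push_cast
      ring
  calc ∑ p ∈ PP N, bp p ^ 2 ≤ ∑ p ∈ PP N, (1 / (p : ℝ) - 1 / ((p : ℝ) + 1)) :=
        Finset.sum_le_sum h1
    _ ≤ ∑ p ∈ Finset.Icc 1 N, (1 / (p : ℝ) - 1 / ((p : ℝ) + 1)) := by
        apply Finset.sum_le_sum_of_subset_of_nonneg (Finset.filter_subset _ _)
        intro p hp _
        have hp0 : (0 : ℝ) < p := by
          have := (Finset.mem_Icc.mp hp).1
          exact_mod_cast this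
        rw [sub_nonneg]
        exact one_div_le_one_div_of_le hp0 (by linarith)
    _ = 1 - 1 / ((N : ℝ) + 1) := h3 N
    _ ≤ 1 := by
        have : (0 : ℝ) ≤ 1 / ((N : ℝ) + 1) := by positivity
        linarith

/-- (J2) contiguity with fair signs. -/
theorem j2 : StmtJ2 := by
  refine ⟨Real.sqrt (Real.exp 1), Real.sqrt_pos.mpr (Real.exp_pos _), ?_⟩
  intro N P
  set S := PP N with hS
  have hM : (0 : ℝ) < 2 ^ S.card := by positivity
  have h1 : ∏ p ∈ S, (1 + bp p ^ 2) ≤ Real.exp 1 := by
    calc ∏ p ∈ S, (1 + bp p ^ 2) ≤ ∏ p ∈ S, Real.exp (bp p ^ 2) := by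
          apply Finset.prod_le_prod
          · intro p _
            positivity
          · intro p _
            rw [add_comm]
            exact Real.add_one_le_exp _
      _ = Real.exp (∑ p ∈ S, bp p ^ 2) := (Real.exp_sum _ _).symm
      _ ≤ Real.exp 1 := Real.exp_le_exp.mpr (sum_le17 N)
  have h2 : (pb S P) ^ 2 ≤ pr S P * av S (fun T => (∏ p ∈ S, (1 + sg T p * bp p)) ^ 2) := by
    unfold pb pr av
    rw [div_pow, div_mul_div_comm, ← sq, div_le_div_iff_of_pos_right (by positivity)]
    refine (Finset.sum_mul_sq_le_sq_mul_sq _ _ _).trans (le_of_eq ?_)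
    congr 1
    apply Finset.sum_congr rfl
    intro T _
    by_cases h : P T <;> simp [h]
  rw [av_sq17] at h2
  have h3 : (pb S P) ^ 2 ≤ pr S P * Real.exp 1 :=
    h2.trans (mul_le_mul_of_nonneg_left h1 (pr_nonneg S P))
  rw [← Real.sqrt_mul (Real.exp_pos _).le, mul_comm]
  exact Real.le_sqrt_of_sq_le h3

end Pool.Agent.Helper11.Q3
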